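import Mathlib

/-!
# Alternating point-line orderings

`n` points and `n` directed lines in general position such that every `k` points have a convex hull
that meets at least `k - 1` of the lines have an alternating ordering
`p 1, l 1, p 2, l 2, ..., p n, l n` with `p i` to the left and `p (i + 1)` to the right of `l i`.

Only the sides matter. Left incidences give arrows from points to lines and right incidences give
arrows from lines to points. Hall's theorem gives a line `r` and two bijections `f, g` from lines to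
points with `f i` to the left and `g i` to the right of `i` for all lines `i` other than `r`; a
choice of `f, g` for which the cycle of `f⁻¹ g` through `r` is longest has only one cycle, which is
the ordering.
-/

set_option autoImplicit false

namespace Pool.Agent.Results.MP_719c39_co.AlternatingOrder

open Finset

/-! ### Merging cycles -/

theorem merge_right {α : Type*} [DecidableEq α] [Finite α] (π : Equiv.Perm α) {y d : α}
    (h : ¬ π.SameCycle y d) :
    (∀ z, π.SameCycle y z → (π * Equiv.swap y d).SameCycle y z) ∧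
      (π * Equiv.swap y d).SameCycle y d := by
  set π' := π * Equiv.swap y d with hπ'
  have hy : π' y = π d := by rw [hπ', Equiv.Perm.mul_apply, Equiv.swap_apply_left]
  have hd : π' d = π y := by rw [hπ', Equiv.Perm.mul_apply, Equiv.swap_apply_right]
  have ho : ∀ z, z ≠ y → z ≠ d → π' z = π z := by
    intro z h1 h2
    rw [hπ', Equiv.Perm.mul_apply, Equiv.swap_apply_of_ne_of_ne h1 h2]
  have hstep : ∀ z, π'.SameCycle z (π' z) := fun z => ⟨1, by simp⟩
  have key : ∀ y d : α, ¬ π.SameCycle y d → (∀ z, z ≠ y → z ≠ d → π' z = π z) →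
      ∀ z, π.SameCycle y z → π'.SameCycle (π y) z := by
    intro y d h ho z hz
    have hk : ∀ k : ℕ, π'.SameCycle (π y) ((π ^ (k + 1)) y) := by
      intro k
      induction k with
      | zero =>
        rw [zero_add, pow_one]
      | succ k ih =>
        by_cases hy : (π ^ (k + 1)) y = y
        · have : (π ^ (k + 1 + 1)) y = π y := by
            rw [pow_succ' π (k + 1), Equiv.Perm.mul_apply, hy]
          rw [this]
        · have hd : (π ^ (k + 1)) y ≠ d := by
            intro hh
            exact h ⟨((k + 1 : ℕ) : ℤ), by rw [zpow_natCast]; exact hh⟩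
          have e : (π ^ (k + 1 + 1)) y = π' ((π ^ (k + 1)) y) := by
            rw [ho _ hy hd, pow_succ' π (k + 1), Equiv.Perm.mul_apply]
          rw [e]
          exact ih.trans (hstep _)
    obtain ⟨i, hi, hi', he⟩ := hz.exists_pow_eq''
    obtain ⟨k, rfl⟩ : ∃ k, i = k + 1 := ⟨i - 1, by omega⟩
    rw [← he]
    exact hk k
  have k1 := key y d h ho
  have k2 := key d y (fun hh => h hh.symm) (fun z h1 h2 => ho z h2 h1)
  have k3 : ∀ z, π.SameCycle y z → π'.SameCycle y z := fun z hz =>
    (k1 y (Equiv.Perm.SameCycle.refl _ _)).symm.trans (k1 z hz)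
  refine ⟨k3, ?_⟩
  have h1 : π'.SameCycle y (π d) := hy ▸ hstep y
  exact h1.trans (k2 d (Equiv.Perm.SameCycle.refl _ _))

theorem merge_left {α : Type*} [DecidableEq α] [Finite α] (π : Equiv.Perm α) {y d : α}
    (h : ¬ π.SameCycle y d) :
    (∀ z, π.SameCycle y z → (Equiv.swap y d * π).SameCycle y z) ∧
      (Equiv.swap y d * π).SameCycle y d := by
  have h' : ¬ (π⁻¹).SameCycle y d := by rwa [Equiv.Perm.sameCycle_inv]
  have e : (π⁻¹ * Equiv.swap y d)⁻¹ = Equiv.swap y d * π := by
    rw [mul_inv_rev, inv_inv, Equiv.swap_inv]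
  obtain ⟨h1, h2⟩ := merge_right π⁻¹ h'
  rw [← e]
  refine ⟨fun z hz => ?_, ?_⟩
  · rw [Equiv.Perm.sameCycle_inv]
    exact h1 z (by rwa [Equiv.Perm.sameCycle_inv])
  · rw [Equiv.Perm.sameCycle_inv]
    exact h2

/-! ### The combinatorial statement -/

section
open scoped Classical

variable {n : ℕ}

/-- points joined to some line of `J` -/
noncomputable def nb (A : Fin n → Fin n → Prop) (J : Finset (Fin n)) : Finset (Fin n) :=
  univ.filter fun v => ∃ i ∈ J, A i v

/-- every set `X` of points is split by at least `|X| - 1` lines -/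
def Split (A : Fin n → Fin n → Prop) : Prop :=
  ∀ X : Finset (Fin n), ∃ Y : Finset (Fin n),
    X.card ≤ Y.card + 1 ∧ ∀ i ∈ Y, (∃ v ∈ X, A i v) ∧ ∃ v ∈ X, ¬ A i v

theorem Split.neg {A : Fin n → Fin n → Prop} (h : Split A) : Split fun i v => ¬ A i v := by
  intro X
  obtain ⟨Y, h1, h2⟩ := h X
  refine ⟨Y, h1, fun i hi => ?_⟩
  obtain ⟨⟨w, hw, h1⟩, v, hv, h2⟩ := h2 i hi
  exact ⟨⟨v, hv, h2⟩, w, hw, not_not.mpr h1⟩

theorem mem_nb {A : Fin n → Fin n → Prop} {J : Finset (Fin n)} {v : Fin n} :
    v ∈ nb A J ↔ ∃ i ∈ J, A i v := by simp [nb]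

/-- points with no line of `J` on the positive side and no line of `K` on the negative side -/
theorem cond_two {A : Fin n → Fin n → Prop} (h : Split A) (J K : Finset (Fin n)) :
    ((nb A J)ᶜ ∩ (nb (fun i v => ¬ A i v) K)ᶜ).card + (J ∪ K).card ≤ n + 1 := by
  set X := (nb A J)ᶜ ∩ (nb (fun i v => ¬ A i v) K)ᶜ with hX
  obtain ⟨Y, h1, hY⟩ := h X
  have h2 : Y ⊆ (J ∪ K)ᶜ := by
    intro i hi
    obtain ⟨⟨v, hv, h3⟩, w, hw, h4⟩ := hY i hi
    rw [hX, mem_inter, mem_compl, mem_compl, mem_nb, mem_nb] at hv hw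
    rw [mem_compl, mem_union]
    rintro (h5 | h5)
    · exact hv.1 ⟨i, h5, h3⟩
    · exact hw.2 ⟨i, h5, h4⟩
  have h3 := card_le_card h2
  have h4 := card_compl_add_card (J ∪ K)
  rw [Fintype.card_fin] at h4
  omega

theorem cond_one {A : Fin n → Fin n → Prop} (h : Split A) (J : Finset (Fin n)) :
    J.card ≤ (nb A J).card + 1 := by
  have h1 := cond_two h J ∅
  have h2 : (nb (fun i v => ¬ A i v) (∅ : Finset (Fin n)))ᶜ = univ := by
    ext v; simp [mem_nb]
  rw [h2, inter_univ, union_empty] at h1
  have h3 := card_compl_add_card (nb A J)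
  rw [Fintype.card_fin] at h3
  omega

theorem core {A : Fin n → Fin n → Prop} (h : Split A) (hn : 0 < n) :
    ∃ K : Finset (Fin n), K.Nonempty ∧ (∀ J, (nb A J).card < J.card → K ⊆ J) ∧
      (K = univ ∨ (nb A K).card < K.card) := by
  have : Nonempty (Fin n) := ⟨⟨0, hn⟩⟩
  by_cases hD : ((univ : Finset (Finset (Fin n))).filter fun J => (nb A J).card < J.card).Nonempty
  · obtain ⟨K, hK, hmin⟩ := exists_min_image _ (fun J : Finset (Fin n) => J.card) hD
    rw [mem_filter] at hK
    refine ⟨K, ?_, ?_, Or.inr hK.2⟩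
    · rw [← card_pos]; omega
    · intro J hJ
      have hu : (nb A (K ∪ J)).card + (nb A (K ∩ J)).card ≤ (nb A K).card + (nb A J).card := by
        have e : nb A (K ∪ J) = nb A K ∪ nb A J := by
          ext v
          simp only [mem_nb, mem_union]
          constructor
          · rintro ⟨i, hi | hi, hv⟩
            · exact Or.inl ⟨i, hi, hv⟩
            · exact Or.inr ⟨i, hi, hv⟩
          · rintro (⟨i, hi, hv⟩ | ⟨i, hi, hv⟩)
            · exact ⟨i, Or.inl hi, hv⟩
            · exact ⟨i, Or.inr hi, hv⟩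
        have e' : nb A (K ∩ J) ⊆ nb A K ∩ nb A J := by
          intro v hv
          obtain ⟨i, hi, hv⟩ := mem_nb.mp hv
          rw [mem_inter] at hi
          exact mem_inter.mpr ⟨mem_nb.mpr ⟨i, hi.1, hv⟩, mem_nb.mpr ⟨i, hi.2, hv⟩⟩
        rw [e]
        have := card_le_card e'
        have := card_union_add_card_inter (nb A K) (nb A J)
        omega
      have h1 := cond_one h (K ∪ J)
      have h2 := card_union_add_card_inter K J
      have h3 : (nb A (K ∩ J)).card < (K ∩ J).card := by
        have := hK.2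
        omega
      have h4 := hmin (K ∩ J) (mem_filter.mpr ⟨mem_univ _, h3⟩)
      have h5 : K ∩ J = K := eq_of_subset_of_card_le inter_subset_left h4
      rw [← h5]
      exact inter_subset_right
  · refine ⟨univ, univ_nonempty, ?_, Or.inl rfl⟩
    intro J hJ
    exact absurd ⟨J, mem_filter.mpr ⟨mem_univ _, hJ⟩⟩ hD

/-- the two bijections -/
theorem exists_perms {A : Fin n → Fin n → Prop} (h : Split A) (hn : 0 < n) :
    ∃ (r : Fin n) (f g : Equiv.Perm (Fin n)), (∀ i, i ≠ r → A i (f i)) ∧
      (∀ i, i ≠ r → ¬ A i (g i)) := by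
  obtain ⟨K, hK, hK1, hK2⟩ := core h hn
  obtain ⟨M, hM, hM1, hM2⟩ := core h.neg hn
  have hr : (K ∩ M).Nonempty := by
    rcases hK2 with rfl | hK2
    · rwa [univ_inter]
    · rcases hM2 with rfl | hM2
      · rwa [inter_univ]
      · by_contra hcon
        rw [not_nonempty_iff_eq_empty] at hcon
        have h1 := cond_two h K M
        have h2 := card_union_add_card_inter K M
        rw [hcon, card_empty] at h2
        have h3 := card_compl_add_card (nb A K)
        have h4 := card_compl_add_card (nb (fun i v => ¬ A i v) M)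
        have h5 := card_union_add_card_inter (nb A K)ᶜ (nb (fun i v => ¬ A i v) M)ᶜ
        have h6 := card_le_univ ((nb A K)ᶜ ∪ (nb (fun i v => ¬ A i v) M)ᶜ)
        rw [Fintype.card_fin] at h3 h4 h6
        omega
  obtain ⟨r, hr⟩ := hr
  rw [mem_inter] at hr
  have hall : ∀ (B : Fin n → Fin n → Prop), (∀ J, (nb B J).card < J.card → r ∈ J) →
      ∃ f : Equiv.Perm (Fin n), ∀ i, i ≠ r → B i (f i) := by
    intro B hB
    set t : Fin n → Finset (Fin n) := fun i => if i = r then univ else univ.filter fun v => B i v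
      with ht
    have hH : ∀ s : Finset (Fin n), s.card ≤ (s.biUnion t).card := by
      intro s
      by_cases hs : r ∈ s
      · have : s.biUnion t = univ := by
          rw [eq_univ_iff_forall]
          intro v
          rw [mem_biUnion]
          exact ⟨r, hs, by simp [ht]⟩
        rw [this]
        exact card_le_univ s
      · have e : s.biUnion t = nb B s := by
          ext v
          rw [mem_biUnion, mem_nb]
          constructor
          · rintro ⟨i, hi, hv⟩
            have : i ≠ r := fun h => hs (h ▸ hi)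
            simp only [ht, if_neg this, mem_filter] at hv
            exact ⟨i, hi, hv.2⟩
          · rintro ⟨i, hi, hv⟩
            have : i ≠ r := fun h => hs (h ▸ hi)
            refine ⟨i, hi, ?_⟩
            simp only [ht, if_neg this, mem_filter]
            exact ⟨mem_univ _, hv⟩
        rw [e]
        by_contra hcon
        exact hs (hB s (not_le.mp hcon))
    obtain ⟨f, hf, hft⟩ := (all_card_le_biUnion_card_iff_exists_injective t).mp hH
    refine ⟨Equiv.ofBijective f (Finite.injective_iff_bijective.mp hf), ?_⟩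
    intro i hi
    have := hft i
    simp only [ht, if_neg hi, mem_filter] at this
    exact this.2
  obtain ⟨f, hf⟩ := hall A (fun J hJ => hK1 J hJ hr.1)
  obtain ⟨g, hg⟩ := hall (fun i v => ¬ A i v) (fun J hJ => hM1 J hJ hr.2)
  exact ⟨r, f, g, hf, hg⟩

/-- a single cycle -/
theorem exists_cycle {A : Fin n → Fin n → Prop} (h : Split A) (hn : 0 < n) :
    ∃ (r : Fin n) (f g : Equiv.Perm (Fin n)), (∀ i, i ≠ r → A i (f i)) ∧
      (∀ i, i ≠ r → ¬ A i (g i)) ∧ ∀ i, (f⁻¹ * g).SameCycle r i := by
  obtain ⟨r, f0, g0, hf0, hg0⟩ := exists_perms h hn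
  set C : Equiv.Perm (Fin n) × Equiv.Perm (Fin n) → Finset (Fin n) := fun q =>
    univ.filter fun i => (q.1⁻¹ * q.2).SameCycle r i with hC
  set D : Finset (Equiv.Perm (Fin n) × Equiv.Perm (Fin n)) := univ.filter fun q =>
    (∀ i, i ≠ r → A i (q.1 i)) ∧ (∀ i, i ≠ r → ¬ A i (q.2 i)) with hD
  have hne : D.Nonempty := ⟨(f0, g0), mem_filter.mpr ⟨mem_univ _, hf0, hg0⟩⟩
  obtain ⟨⟨f, g⟩, hfg, hmax⟩ := exists_max_image D (fun q => (C q).card) hne
  obtain ⟨-, hf, hg⟩ := mem_filter.mp hfg
  simp only at hf hg
  refine ⟨r, f, g, hf, hg, ?_⟩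
  by_contra hcon
  push Not at hcon
  obtain ⟨d0, hd0⟩ := hcon
  -- no merging is possible
  have big : ∀ f' g' : Equiv.Perm (Fin n), (f', g') ∈ D →
      (∀ z, (f⁻¹ * g).SameCycle r z → (f'⁻¹ * g').SameCycle r z) →
      ∀ d, ¬ (f⁻¹ * g).SameCycle r d → ¬ (f'⁻¹ * g').SameCycle r d := by
    intro f' g' hD' hsub d hd hd'
    have h1 := hmax (f', g') hD'
    have h2 : C (f, g) ⊂ C (f', g') := by
      rw [Finset.ssubset_iff_of_subset]
      · exact ⟨d, mem_filter.mpr ⟨mem_univ _, hd'⟩, fun hh => hd (mem_filter.mp hh).2⟩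
      · intro z hz
        exact mem_filter.mpr ⟨mem_univ _, hsub z (mem_filter.mp hz).2⟩
    exact absurd (card_lt_card h2) (not_lt.mpr h1)
  have hgswap : ∀ y d, (f⁻¹ * g).SameCycle r y → ¬ (f⁻¹ * g).SameCycle r d →
      (y = r ∨ ¬ A y (g d)) → A d (g y) := by
    intro y d hy hd h1
    by_contra h2
    have hyd : ¬ (f⁻¹ * g).SameCycle y d := fun hh => hd (hy.trans hh)
    have hdr : d ≠ r := by rintro rfl; exact hd (Equiv.Perm.SameCycle.refl _ _)
    obtain ⟨m1, m2⟩ := merge_right (f⁻¹ * g) hyd
    have e : f⁻¹ * g * Equiv.swap y d = f⁻¹ * (g * Equiv.swap y d) := mul_assoc _ _ _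
    rw [e] at m1 m2
    refine big f (g * Equiv.swap y d) ?_ ?_ d hd ((m1 r hy.symm).symm.trans m2)
    · refine mem_filter.mpr ⟨mem_univ _, hf, ?_⟩
      intro i hi
      simp only [Equiv.Perm.mul_apply]
      by_cases hiy : i = y
      · rw [hiy, Equiv.swap_apply_left]
        rcases h1 with h1 | h1
        · exact absurd (hiy.trans h1) hi
        · exact h1
      · by_cases hid : i = d
        · rw [hid, Equiv.swap_apply_right]; exact h2
        · rw [Equiv.swap_apply_of_ne_of_ne hiy hid]; exact hg i hi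
    · intro z hz
      exact (m1 r hy.symm).symm.trans (m1 z (hy.symm.trans hz))
  have hfswap : ∀ y d, (f⁻¹ * g).SameCycle r y → ¬ (f⁻¹ * g).SameCycle r d →
      (y = r ∨ A y (f d)) → ¬ A d (f y) := by
    intro y d hy hd h1 h2
    have hyd : ¬ (f⁻¹ * g).SameCycle y d := fun hh => hd (hy.trans hh)
    have hdr : d ≠ r := by rintro rfl; exact hd (Equiv.Perm.SameCycle.refl _ _)
    obtain ⟨m1, m2⟩ := merge_left (f⁻¹ * g) hyd
    have e : Equiv.swap y d * (f⁻¹ * g) = (f * Equiv.swap y d)⁻¹ * g := by
      rw [mul_inv_rev, Equiv.swap_inv, mul_assoc]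
    rw [e] at m1 m2
    refine big (f * Equiv.swap y d) g ?_ ?_ d hd ((m1 r hy.symm).symm.trans m2)
    · refine mem_filter.mpr ⟨mem_univ _, ?_, hg⟩
      intro i hi
      simp only [Equiv.Perm.mul_apply]
      by_cases hiy : i = y
      · rw [hiy, Equiv.swap_apply_left]
        rcases h1 with h1 | h1
        · exact absurd (hiy.trans h1) hi
        · exact h1
      · by_cases hid : i = d
        · rw [hid, Equiv.swap_apply_right]; exact h2
        · rw [Equiv.swap_apply_of_ne_of_ne hiy hid]; exact hf i hi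
    · intro z hz
      exact (m1 r hy.symm).symm.trans (m1 z (hy.symm.trans hz))
  -- walk along the cycle of `r`
  set π := f⁻¹ * g with hπ
  have hfπ : ∀ i, f (π i) = g i := fun i => by
    rw [hπ, Equiv.Perm.mul_apply]
    exact f.apply_symm_apply _
  have walk : ∀ k : ℕ, (∀ j, 0 < j → j ≤ k → (π ^ j) r ≠ r) →
      ∀ d, ¬ π.SameCycle r d → A d (g ((π ^ k) r)) := by
    intro k
    induction k with
    | zero =>
      intro _ d hd
      exact hgswap r d (Equiv.Perm.SameCycle.refl _ _) hd (Or.inl rfl)
    | succ k ih =>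
      intro hk d hd
      have ihk := ih (fun j h1 h2 => hk j h1 (by omega))
      have hy : π.SameCycle r ((π ^ (k + 1)) r) := ⟨((k + 1 : ℕ) : ℤ), by rw [zpow_natCast]⟩
      have hyr : (π ^ (k + 1)) r ≠ r := hk (k + 1) (by omega) le_rfl
      have hfy : f ((π ^ (k + 1)) r) = g ((π ^ k) r) := by
        rw [pow_succ' π k, Equiv.Perm.mul_apply, hfπ]
      refine hgswap _ d hy hd (Or.inr ?_)
      -- `g d = f (π d)`
      rw [← hfπ d]
      have hd' : ¬ π.SameCycle r (π d) := by
        rw [Equiv.Perm.sameCycle_apply_right]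
        exact hd
      intro hA
      refine hfswap _ (π d) hy hd' (Or.inr hA) ?_
      rw [hfy]
      exact ihk _ hd'
  -- the return to `r`
  have hper : ∃ k, 0 < k ∧ (π ^ k) r = r :=
    ⟨orderOf π, orderOf_pos π, by rw [pow_orderOf_eq_one]; rfl⟩
  classical
  have hk0 := Nat.find_spec hper
  have hk1 : ∀ j, j < Nat.find hper → ¬ (0 < j ∧ (π ^ j) r = r) := fun j hj =>
    Nat.find_min hper hj
  set k := Nat.find hper with hk
  obtain ⟨k', hk'⟩ : ∃ k', k = k' + 1 := ⟨k - 1, by omega⟩
  have h1 := walk k' (fun j h1 h2 h3 => hk1 j (by omega) ⟨h1, h3⟩) d0 hd0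
  have h2 : f r = g ((π ^ k') r) := by
    have : π ((π ^ k') r) = r := by
      rw [← Equiv.Perm.mul_apply, ← pow_succ', ← hk']
      exact hk0.2
    rw [← hfπ, this]
  rw [← h2] at h1
  exact hfswap r d0 (Equiv.Perm.SameCycle.refl _ _) hd0 (Or.inl rfl) h1

/-- a permutation with a single cycle lists everything -/
theorem list_cycle (π : Equiv.Perm (Fin n)) (r : Fin n) (h : ∀ i, π.SameCycle r i) :
    Function.Bijective (fun i : Fin n => (π ^ ((i : ℕ) + 1)) r) ∧ (π ^ n) r = r := by
  set m := Function.minimalPeriod π r with hm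
  have hper : r ∈ Function.periodicPts π := by
    refine ⟨orderOf π, orderOf_pos π, ?_⟩
    rw [Function.IsPeriodicPt, Equiv.Perm.iterate_eq_pow, pow_orderOf_eq_one]
    rfl
  have hmpos : 0 < m := Function.minimalPeriod_pos_of_mem_periodicPts hper
  have hmr : (π ^ m) r = r := by
    have := Function.iterate_minimalPeriod (f := π) (x := r)
    rwa [← hm, Equiv.Perm.iterate_eq_pow] at this
  have hinj : Function.Injective (fun i : Fin m => (π ^ (i : ℕ)) r) := by
    intro i j hij
    have := Function.iterate_injOn_Iio_minimalPeriod (f := π) (x := r) (Set.mem_Iio.mpr i.2)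
      (Set.mem_Iio.mpr j.2) (by simpa only [Equiv.Perm.iterate_eq_pow] using hij)
    exact Fin.ext this
  have hmn : m ≤ n := by
    have := Fintype.card_le_of_injective _ hinj
    simpa using this
  have hsurj : ∀ j, ∃ k < m, (π ^ k) r = j := by
    intro j
    obtain ⟨k, -, hk⟩ := (h j).exists_pow_eq'
    refine ⟨k % m, Nat.mod_lt _ hmpos, ?_⟩
    have := Function.iterate_mod_minimalPeriod_eq (f := π) (x := r) (n := k)
    rw [← hm, Equiv.Perm.iterate_eq_pow, Equiv.Perm.iterate_eq_pow] at this
    rw [this, hk]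
  have hnm : n ≤ m := by
    have : Function.Surjective (fun i : Fin m => (π ^ (i : ℕ)) r) := by
      intro j
      obtain ⟨k, hk, he⟩ := hsurj j
      exact ⟨⟨k, hk⟩, he⟩
    have := Fintype.card_le_of_surjective _ this
    simpa using this
  have hnm' : m = n := le_antisymm hmn hnm
  have hpow : π ^ n = π ^ m := congrArg (fun k => π ^ k) hnm'.symm
  refine ⟨?_, by rw [hpow]; exact hmr⟩
  refine Finite.surjective_iff_bijective.mp ?_
  intro j
  obtain ⟨k, hk, he⟩ := hsurj j
  rcases Nat.eq_zero_or_pos k with h0 | h0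
  · refine ⟨⟨m - 1, by omega⟩, ?_⟩
    simp only
    rw [Nat.sub_add_cancel hmpos, hmr, ← he, h0]
    rfl
  · refine ⟨⟨k - 1, by omega⟩, ?_⟩
    simp only
    rw [Nat.sub_add_cancel h0, he]

theorem exists_order {A : Fin n → Fin n → Prop} (h : Split A) :
    ∃ σ τ : Equiv.Perm (Fin n), ∀ (i : ℕ) (hi : i + 1 < n),
      A (τ ⟨i, by omega⟩) (σ ⟨i, by omega⟩) ∧ ¬ A (τ ⟨i, by omega⟩) (σ ⟨i + 1, hi⟩) := by
  rcases Nat.eq_zero_or_pos n with h0 | h0
  · exact ⟨1, 1, fun i hi => by omega⟩
  · obtain ⟨r, f, g, hf, hg, hc⟩ := exists_cycle h h0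
    set π := f⁻¹ * g with hπ
    have hfπ : ∀ i, f (π i) = g i := fun i => by
      rw [hπ, Equiv.Perm.mul_apply]
      exact f.apply_symm_apply _
    obtain ⟨hb, hn⟩ := list_cycle π r hc
    set τ : Equiv.Perm (Fin n) := Equiv.ofBijective _ hb with hτ
    have hτi : ∀ i : Fin n, τ i = (π ^ ((i : ℕ) + 1)) r := fun i => rfl
    refine ⟨τ.trans f, τ, ?_⟩
    intro i hi
    have hne : τ ⟨i, by omega⟩ ≠ r := by
      intro hh
      have h1 : τ ⟨n - 1, by omega⟩ = r := by
        rw [hτi]
        simp only
        rw [Nat.sub_add_cancel h0, hn]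
      have h2 := τ.injective (hh.trans h1.symm)
      rw [Fin.mk.injEq] at h2
      omega
    refine ⟨hf _ hne, ?_⟩
    have h3 : (τ.trans f) ⟨i + 1, hi⟩ = g (τ ⟨i, by omega⟩) := by
      rw [Equiv.trans_apply, hτi, hτi, ← hfπ]
      simp only
      rw [pow_succ' π (i + 1), Equiv.Perm.mul_apply]
    rw [h3]
    exact hg _ hne

end

/-! ### Points and directed lines in the plane -/

/-- A directed line in the plane: a point of the line and a direction. -/
structure DLine where
  /-- a point of the line -/
  base : ℝ × ℝ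
  /-- the direction -/
  dir : ℝ × ℝ
  /-- the direction is a nonzero vector -/
  dir_ne : dir ≠ 0

/-- The determinant of the direction of `l` and the vector from the base point of `l` to `q`: it is
positive when `q` lies on the (open) left side of `l`, negative when `q` lies on the right side and
zero when `q` lies on `l`. -/
def side (l : DLine) (q : ℝ × ℝ) : ℝ :=
  l.dir.1 * (q.2 - l.base.2) - l.dir.2 * (q.1 - l.base.1)

/-- The line `l` meets the convex hull of the points `p i`, `i ∈ X`. -/
def MeetsHull {n : ℕ} (l : DLine) (p : Fin n → ℝ × ℝ) (X : Finset (Fin n)) : Prop :=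
  ∃ q ∈ convexHull ℝ (p '' (X : Set (Fin n))), side l q = 0

theorem convex_left (l : DLine) : Convex ℝ {q | 0 < side l q} := by
  intro x hx y hy a b ha hb hab
  simp only [Set.mem_ofPred_eq] at hx hy ⊢
  have e : side l (a • x + b • y) = a * side l x + b * side l y := by
    have hb' : b = 1 - a := by linarith
    subst hb'
    simp only [side, Prod.fst_add, Prod.snd_add, Prod.smul_fst, Prod.smul_snd, smul_eq_mul]
    ring
  rw [e]
  rcases ha.eq_or_lt with h0 | h0
  · rw [← h0] at hab ⊢
    have : b = 1 := by linarith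
    rw [this]; linarith
  · have h1 := mul_pos h0 hx
    have h2 := mul_nonneg hb hy.le
    linarith

theorem convex_right (l : DLine) : Convex ℝ {q | side l q < 0} := by
  intro x hx y hy a b ha hb hab
  simp only [Set.mem_ofPred_eq] at hx hy ⊢
  have e : side l (a • x + b • y) = a * side l x + b * side l y := by
    have hb' : b = 1 - a := by linarith
    subst hb'
    simp only [side, Prod.fst_add, Prod.snd_add, Prod.smul_fst, Prod.smul_snd, smul_eq_mul]
    ring
  rw [e]
  rcases ha.eq_or_lt with h0 | h0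
  · rw [← h0] at hab ⊢
    have : b = 1 := by linarith
    rw [this]; linarith
  · have h1 := mul_neg_of_pos_of_neg h0 hx
    have h2 := mul_nonpos_of_nonneg_of_nonpos hb hy.le
    linarith

/-- **Alternating orderings.** Let `p` be `n` points and `l` be `n` directed lines in the plane, no
point on any line, such that for every nonempty set `X` of points at least `|X| - 1` of the lines
meet the convex hull of `X`. Then the points and the lines can be listed as
`p (σ 0), l (τ 0), p (σ 1), l (τ 1), ...` such that each line but the last has the previous point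
on its left side and the next point on its right side. -/
theorem result (n : ℕ) (p : Fin n → ℝ × ℝ) (l : Fin n → DLine)
    (hgen : ∀ i j, side (l j) (p i) ≠ 0)
    (hull : ∀ X : Finset (Fin n), X.card - 1 ≤ Nat.card {j // MeetsHull (l j) p X}) :
    ∃ σ τ : Equiv.Perm (Fin n), ∀ (i : ℕ) (hi : i + 1 < n),
      0 < side (l (τ ⟨i, by omega⟩)) (p (σ ⟨i, by omega⟩)) ∧
        side (l (τ ⟨i, by omega⟩)) (p (σ ⟨i + 1, hi⟩)) < 0 := by
  classical
  have hsplit : Split fun j i : Fin n => 0 < side (l j) (p i) := by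
    intro X
    refine ⟨univ.filter fun j => MeetsHull (l j) p X, ?_, ?_⟩
    · have := hull X
      rw [Nat.card_eq_fintype_card, Fintype.card_subtype] at this
      omega
    · intro j hj
      obtain ⟨q, hq, hq0⟩ := (mem_filter.mp hj).2
      constructor
      · by_contra hcon
        push Not at hcon
        have hsub : p '' (X : Set (Fin n)) ⊆ {q | side (l j) q < 0} := by
          rintro _ ⟨i, hi, rfl⟩
          exact lt_of_le_of_ne (hcon i hi) (hgen i j)
        have := convexHull_min hsub (convex_right (l j)) hq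
        simp only [Set.mem_ofPred_eq] at this
        linarith
      · by_contra hcon
        push Not at hcon
        have hsub : p '' (X : Set (Fin n)) ⊆ {q | 0 < side (l j) q} := by
          rintro _ ⟨i, hi, rfl⟩
          exact hcon i hi
        have := convexHull_min hsub (convex_left (l j)) hq
        simp only [Set.mem_ofPred_eq] at this
        linarith
  obtain ⟨σ, τ, h⟩ := exists_order hsplit
  refine ⟨σ, τ, fun i hi => ?_⟩
  obtain ⟨h1, h2⟩ := h i hi
  exact ⟨h1, lt_of_le_of_ne (not_lt.mp h2) (hgen _ _)⟩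

end Pool.Agent.Results.MP_719c39_co.AlternatingOrder
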